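import Mathlib
import Pool.Agent.Q182.BohrBoolean

/-!
# A precompact abelian group that is not an image of a reflexive precompact group
-/

namespace Pool.Agent.Results.MP_0995d8_gt.NotImage

open Q182.Bohr

universe u

/-- There is a Hausdorff precompact abelian topological group `H` such that no reflexive
precompact abelian group `G` (in any universe) admits a continuous homomorphism onto `H`. -/
theorem result :
    ∃ (H : Type) (_ : AddCommGroup H) (_ : TopologicalSpace H),
      IsTopologicalAddGroup H ∧ T2Space H ∧ IsPrecompactGroup H ∧
      ∀ (G : Type u) [AddCommGroup G] [TopologicalSpace G] [IsTopologicalAddGroup G] [T2Space G],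
        IsPrecompactGroup G → IsReflexive G →
        ¬ ∃ f : G →+ H, Continuous f ∧ Function.Surjective f := by
  refine ⟨H, inferInstance, inferInstance, inferInstance, inferInstance, precompact_H, ?_⟩
  intro G _ _ _ _ hG hr ⟨f, hf, hs⟩
  exact no_reflexive G hG hr f hf hs

end Pool.Agent.Results.MP_0995d8_gt.NotImage
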